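import Mathlib
import Pool.Agent.Lib_helper6.Ins.NMProof

/-!
# The degree of a non-standard model of true arithmetic is never a minimal upper bound
-/

set_option autoImplicit false
open Pool.Agent.Lib_helper6.NM

namespace Pool.Agent.Results.MP_241a35_lc.NeverMinimal

/-- **The degree of a non-standard model of true arithmetic is never a minimal upper bound for
the arithmetical degrees.** If `𝒜`, with universe `ω`, is a model of true arithmetic not
isomorphic to the standard model, then some set `C` computes every arithmetical set, and `C` is
computable from the atomic diagram of `𝒜`, while the atomic diagram of `𝒜` is not computable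
from `C`. -/
theorem result (𝒜 : LA.Structure ℕ) (h1 : ModelsTA 𝒜) (h2 : Nonstandard 𝒜) :
    ∃ C : Set ℕ, UpperBound C ∧ TRed C (atomicDiagram 𝒜) ∧ ¬ TRed (atomicDiagram 𝒜) C := by
  exact Pool.Agent.Lib_helper6.NM.main 𝒜 h1 h2

end Pool.Agent.Results.MP_241a35_lc.NeverMinimal
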